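import Pool.Agent.TH915.HC.Taub

set_option autoImplicit false

/-! Visits to a neighbourhood of a limit point: positive upper density. -/

open Filter
open scoped Topology

namespace Pool.Agent.TH915.HC

open Pool.Agent.H160R3.Herm

variable {u : ℕ → ℝ} {η : ℝ → ℝ} {a b : ℝ}

/-- the number of indices up to `N` at which `u` is within `ε` of `x` -/
noncomputable def visits (u : ℕ → ℝ) (x ε : ℝ) (N : ℕ) : ℕ :=
  {n : ℕ | n ∈ Finset.Icc 1 N ∧ |u n - x| < ε}.ncard

lemma le_visits {x ε : ℝ} {N m k : ℕ} (hm : 1 ≤ m) (hk : k ≤ N)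
    (h : ∀ n, m ≤ n → n ≤ k → |u n - x| < ε) : (k : ℝ) + 1 - m ≤ visits u x ε N := by
  have hfin : {n : ℕ | n ∈ Finset.Icc 1 N ∧ |u n - x| < ε}.Finite :=
    (Finset.Icc 1 N).finite_toSet.subset fun n hn => hn.1
  have hsub : ((Finset.Icc m k : Finset ℕ) : Set ℕ) ⊆
      {n : ℕ | n ∈ Finset.Icc 1 N ∧ |u n - x| < ε} := by
    intro n hn
    rw [Finset.mem_coe, Finset.mem_Icc] at hn
    exact ⟨Finset.mem_Icc.2 ⟨hm.trans hn.1, hn.2.trans hk⟩, h n hn.1 hn.2⟩
  have h1 := Set.ncard_le_ncard hsub hfin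
  rw [Set.ncard_coe_finset, Nat.card_Icc] at h1
  have h2 : (k + 1 : ℕ) ≤ visits u x ε N + m := by
    unfold visits; omega
  have h3 : ((k + 1 : ℕ) : ℝ) ≤ ((visits u x ε N + m : ℕ) : ℝ) := by exact_mod_cast h2
  push_cast at h3
  linarith

/-- Every neighbourhood of every limit point is visited with positive upper density. -/
theorem density (h : SlowDec u η a b) {δ ε x : ℝ} (hδ0 : 0 < δ) (hδ1 : δ ≤ 1 / 2) (hε : 0 < ε)
    (hE : ∀ θ, 0 ≤ θ → θ ≤ δ → η θ ≤ ε / 4)
    (hx1 : liminf u atTop ≤ x) (hx2 : x ≤ limsup u atTop) :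
    ∃ᶠ N : ℕ in atTop, δ / 2 * (N : ℝ) ≤ visits u x ε N := by
  rw [frequently_atTop]
  intro N0
  obtain ⟨N1, hN1⟩ := exists_nat_gt (4 / δ)
  set M0 : ℕ := max (max N0 N1) 1 with hM0
  by_cases hA : ∃ᶠ n in atTop, x + ε / 2 < u n
  · -- descent through the neighbourhood
    obtain ⟨n1, hn1, hn1u⟩ := frequently_atTop.1 hA M0
    have h5 : ∃ᶠ n in atTop, u n < x + ε / 4 := by
      apply frequently_lt_of_liminf_lt (h.bddU _).isCoboundedUnder_ge
      linarith
    obtain ⟨n2, hn2, hn2u⟩ := frequently_atTop.1 h5 n1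
    classical
    have hex : ∃ m, n1 ≤ m ∧ u m < x + ε / 4 := ⟨n2, hn2, hn2u⟩
    set m := Nat.find hex with hm
    obtain ⟨hm1, hm2⟩ := Nat.find_spec hex
    rw [← hm] at hm1 hm2
    have hn10 : 0 < n1 := by omega
    have hn1r : (0 : ℝ) < n1 := by exact_mod_cast hn10
    have hmr : (0 : ℝ) < m := by exact_mod_cast (lt_of_lt_of_le hn10 hm1)
    have hstep : (n1 : ℝ) < (1 - δ) * m := by
      by_contra hcon
      rw [not_lt] at hcon
      have k1 := h.step n1 m hn10 hm1
      have k2 : η (1 - n1 / m) ≤ ε / 4 := by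
        apply hE
        · rw [sub_nonneg, div_le_one hmr]; exact_mod_cast hm1
        · rw [sub_le_comm, le_div_iff₀ hmr]; exact hcon
      linarith
    set k : ℕ := ⌈(1 - δ) * (m : ℝ)⌉₊ with hk
    have hk1 : (1 - δ) * (m : ℝ) ≤ k := Nat.le_ceil _
    have hk2 : (k : ℝ) < (1 - δ) * m + 1 := Nat.ceil_lt_add_one (by nlinarith)
    have hn1k : n1 < k := by
      have : (n1 : ℝ) < k := hstep.trans_le hk1
      exact_mod_cast this
    have hbig : (4 / δ : ℝ) < m := by
      have : N1 ≤ m := by omega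
      have : (N1 : ℝ) ≤ m := by exact_mod_cast this
      linarith
    rw [div_lt_iff₀ hδ0] at hbig
    have hm0 : 0 < m := lt_of_lt_of_le hn10 hm1
    refine ⟨m, by omega, ?_⟩
    have h6 := le_visits (u := u) (x := x) (ε := ε) (N := m) (m := k) (k := m - 1) (by omega)
      (by omega) (by
        intro n hn hn'
        have hnm : n < m := by omega
        have hnlow : x + ε / 4 ≤ u n := by
          by_contra hcon
          exact Nat.find_min hex hnm ⟨by omega, not_le.1 hcon⟩
        have k1 := h.step n m (by omega) hnm.le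
        have k2 : η (1 - n / m) ≤ ε / 4 := by
          have hnk : (k : ℝ) ≤ n := by exact_mod_cast hn
          apply hE
          · rw [sub_nonneg, div_le_one hmr]; exact_mod_cast hnm.le
          · rw [sub_le_comm, le_div_iff₀ hmr]; exact hk1.trans hnk
        rw [abs_lt]
        constructor <;> linarith)
    rw [Nat.cast_sub (by omega)] at h6
    push_cast at h6
    nlinarith
  · -- `x` is essentially the upper limit
    rw [not_frequently] at hA
    obtain ⟨N2, hN2⟩ := eventually_atTop.1 hA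
    have h4 : ∃ᶠ n in atTop, x - ε / 4 < u n := by
      apply frequently_lt_of_lt_limsup (h.bddL _).isCoboundedUnder_le
      linarith
    obtain ⟨n, hn, hnu⟩ := frequently_atTop.1 h4 (max M0 N2)
    have hn0 : 0 < n := by omega
    have hnr : (0 : ℝ) < n := by exact_mod_cast hn0
    set f : ℕ := ⌊δ * (n : ℝ)⌋₊ with hf
    have hf1 : (f : ℝ) ≤ δ * n := Nat.floor_le (by positivity)
    have hf2 : δ * (n : ℝ) < f + 1 := Nat.lt_floor_add_one _
    refine ⟨n + f, by omega, ?_⟩
    have h6 := le_visits (u := u) (x := x) (ε := ε) (N := n + f) (m := n) (k := n + f) (by omega)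
      le_rfl (by
        intro j hj hj'
        have hup : u j ≤ x + ε / 2 := not_lt.1 (hN2 j (by omega))
        have k1 := h.step n j hn0 hj
        have hjr : (j : ℝ) ≤ n + f := by exact_mod_cast hj'
        have hjn : (n : ℝ) ≤ j := by exact_mod_cast hj
        have hj0 : (0 : ℝ) < j := by linarith
        have k2 : η (1 - n / j) ≤ ε / 4 := by
          apply hE
          · rw [sub_nonneg, div_le_one hj0]; exact hjn
          · rw [sub_le_comm, le_div_iff₀ hj0]; nlinarith
        rw [abs_lt]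
        constructor <;> linarith)
    push_cast at h6 ⊢
    nlinarith

end Pool.Agent.TH915.HC
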