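import Pool.Agent.TH915.HC.Dens
import Pool.Agent.H160R3.Herm.Main

set_option autoImplicit false

/-! Convergence of a bounded slowly decreasing sequence is convergence of its means; the case of
Hermite's constant. -/

open Filter
open scoped Topology

namespace Pool.Agent.TH915.HC

open Pool.Agent.H160R3.Herm

variable {u : ℕ → ℝ} {η : ℝ → ℝ} {a b : ℝ}

lemma tendsto_mean {L : ℝ} (h : Tendsto u atTop (𝓝 L)) : Tendsto (mean u) atTop (𝓝 L) := by
  have h1 : Tendsto (fun n => u (n + 1)) atTop (𝓝 L) := h.comp (tendsto_add_atTop_nat 1)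
  have h2 := h1.cesaro
  refine h2.congr fun N => ?_
  have : ∑ i ∈ Finset.range N, u (i + 1) = ∑ n ∈ Finset.Icc 1 N, u n := by
    rw [← Finset.sum_image (f := u) (s := Finset.range N) (g := fun i => i + 1)
      (by intro x _ y _ hxy; simpa using hxy)]
    congr 1
    ext x
    simp only [Finset.mem_image, Finset.mem_range, Finset.mem_Icc]
    constructor
    · rintro ⟨i, hi, rfl⟩; omega
    · rintro ⟨h1, h2⟩; exact ⟨x - 1, by omega, by omega⟩
  rw [this, mean, div_eq_inv_mul]

theorem tendsto_iff (h : SlowDec u η a b) {L : ℝ} :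
    Tendsto u atTop (𝓝 L) ↔ Tendsto (mean u) atTop (𝓝 L) := by
  refine ⟨tendsto_mean, fun hm => ?_⟩
  have e1 : limsup (mean u) atTop = L := hm.limsup_eq
  have e2 : liminf (mean u) atTop = L := hm.liminf_eq
  have e3 : limsup u atTop ≤ liminf u atTop := by
    apply le_of_forall_pos_le_add
    intro ε hε
    obtain ⟨δ, hδ, hη⟩ := h.small (ε / 2) (by positivity)
    set δ' : ℝ := min (δ / 2) (1 / 2) with hδ'
    have hδ0 : 0 < δ' := by rw [hδ']; positivity
    have hδ1 : δ' < 1 := by
      have := min_le_right (δ / 2) (1 / 2 : ℝ)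
      linarith
    have hδδ : δ' < δ := by
      have := min_le_left (δ / 2) (1 / 2 : ℝ)
      linarith
    have h1 := osc_mean h hδ0 hδ1 (E := ε / 2) fun θ h0 h1 => (hη θ h0 (h1.trans_lt hδδ)).le
    rw [e1, e2, sub_self, mul_zero] at h1
    have h2 := nonpos_of_mul_nonpos_right h1 hδ0
    linarith
  have e4 : liminf u atTop ≤ limsup u atTop := liminf_le_limsup (h.bddU _) (h.bddL _)
  have e5 : Tendsto u atTop (𝓝 (limsup u atTop)) :=
    tendsto_of_liminf_eq_limsup (le_antisymm e4 e3) rfl (h.bddU _) (h.bddL _)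
  have e6 := tendsto_nhds_unique hm (tendsto_mean e5)
  rw [e6]
  exact e5

lemma modulus_mono {θ δ : ℝ} (h0 : 0 ≤ θ) (h1 : θ ≤ δ) (h2 : δ ≤ 1 / 2) :
    modulus θ ≤ modulus δ := by
  have hm := Real.binEntropy_strictMonoOn.monotoneOn
  have h3 : Real.binEntropy θ ≤ Real.binEntropy δ := by
    apply hm _ _ h1
    · constructor
      · exact h0
      · norm_num; linarith
    · constructor
      · linarith
      · norm_num; linarith
  have h4 : 0 ≤ Real.log 144 := Real.log_nonneg (by norm_num)
  unfold modulus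
  have := mul_le_mul_of_nonneg_right h1 h4
  linarith

end Pool.Agent.TH915.HC
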