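import Pool.Agent.H160R3.Herm.Seq

set_option autoImplicit false

/-! A quantitative Tauberian theorem for bounded slowly decreasing sequences. -/

open Filter
open scoped Topology

namespace Pool.Agent.TH915.HC

open Pool.Agent.H160R3.Herm

/-- arithmetic means -/
noncomputable def mean (u : ℕ → ℝ) (N : ℕ) : ℝ := (∑ n ∈ Finset.Icc 1 N, u n) / N

lemma sum_eq (u : ℕ → ℝ) {N : ℕ} (hN : 0 < N) : ∑ n ∈ Finset.Icc 1 N, u n = N * mean u N := by
  have : (N : ℝ) ≠ 0 := by positivity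
  unfold mean
  field_simp

lemma sum_split (u : ℕ → ℝ) {n m : ℕ} (h : n ≤ m) :
    ∑ k ∈ Finset.Icc 1 m, u k = ∑ k ∈ Finset.Icc 1 n, u k + ∑ k ∈ Finset.Ioc n m, u k := by
  have h1 : ∀ j : ℕ, Finset.Icc 1 j = Finset.Ioc 0 j := by
    intro j; ext x; simp [Finset.mem_Icc, Finset.mem_Ioc]; omega
  rw [h1, h1, ← Finset.Ioc_union_Ioc_eq_Ioc (Nat.zero_le n) h, Finset.sum_union]
  rw [Finset.disjoint_left]
  intro x hx hy
  rw [Finset.mem_Ioc] at hx hy
  omega

variable {u : ℕ → ℝ} {η : ℝ → ℝ} {a b : ℝ}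

lemma mean_le (h : SlowDec u η a b) {N : ℕ} (hN : 0 < N) : mean u N ≤ b := by
  have hN' : (0 : ℝ) < N := by exact_mod_cast hN
  rw [mean, div_le_iff₀ hN']
  calc ∑ n ∈ Finset.Icc 1 N, u n ≤ ∑ n ∈ Finset.Icc 1 N, b := Finset.sum_le_sum fun i _ => h.upper i
    _ = b * N := by simp [mul_comm]

lemma le_mean (h : SlowDec u η a b) {N : ℕ} (hN : 0 < N) : a ≤ mean u N := by
  have hN' : (0 : ℝ) < N := by exact_mod_cast hN
  rw [mean, le_div_iff₀ hN']
  calc a * N = ∑ n ∈ Finset.Icc 1 N, a := by simp [mul_comm]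
    _ ≤ ∑ n ∈ Finset.Icc 1 N, u n := Finset.sum_le_sum fun i _ => h.lower i

lemma bddU (h : SlowDec u η a b) : IsBoundedUnder (· ≤ ·) atTop (mean u) :=
  ⟨b, eventually_map.2 ((eventually_gt_atTop 0).mono fun _ hN => mean_le h hN)⟩

lemma bddL (h : SlowDec u η a b) : IsBoundedUnder (· ≥ ·) atTop (mean u) :=
  ⟨a, eventually_map.2 ((eventually_gt_atTop 0).mono fun _ hN => le_mean h hN)⟩

/-- the window above a large value -/
lemma upper_step (h : SlowDec u η a b) {δ E : ℝ} (hδ0 : 0 < δ) (hδ1 : δ < 1)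
    (hE : ∀ θ, 0 ≤ θ → θ ≤ δ → η θ ≤ E) :
    δ * (limsup u atTop - E - limsup (mean u) atTop) ≤
      (1 - δ) * (limsup (mean u) atTop - liminf (mean u) atTop) := by
  set B := limsup u atTop with hB
  set q := limsup (mean u) atTop with hq
  set p := liminf (mean u) atTop with hp
  have h1δ : 0 < 1 - δ := by linarith
  apply le_of_forall_pos_le_add
  intro ε' hε'
  set ε : ℝ := ε' / 4 with hε
  have hε0 : 0 < ε := by positivity
  set r₀ : ℝ := 1 / (1 - δ) with hr₀
  have hr1 : 1 < r₀ := by rw [hr₀, lt_div_iff₀ h1δ]; linarith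
  have key : (r₀ - 1) * (B - ε - E) - r₀ * (q + ε) + (p - ε) ≤ 0 := by
    by_contra hcon
    rw [not_le] at hcon
    have t1 : Tendsto (fun n : ℕ => (⌊r₀ * (n : ℝ)⌋₊ : ℝ) / (n : ℝ)) atTop (𝓝 r₀) :=
      (tendsto_nat_floor_mul_div_atTop (by linarith : (0 : ℝ) ≤ r₀)).comp tendsto_natCast_atTop_atTop
    have t2 : Tendsto (fun n : ℕ => ((⌊r₀ * (n : ℝ)⌋₊ : ℝ) / (n : ℝ) - 1) * (B - ε - E) -
        (⌊r₀ * (n : ℝ)⌋₊ : ℝ) / (n : ℝ) * (q + ε) + (p - ε)) atTop
        (𝓝 ((r₀ - 1) * (B - ε - E) - r₀ * (q + ε) + (p - ε))) :=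
      (((t1.sub_const 1).mul_const _).sub (t1.mul_const _)).add_const _
    have e1 := t2.eventually (lt_mem_nhds hcon)
    have e2 : ∀ᶠ N in atTop, mean u N < q + ε :=
      eventually_lt_of_limsup_lt (show limsup (mean u) atTop < q + ε by linarith) (bddU h)
    have e3 : ∀ᶠ N in atTop, p - ε < mean u N :=
      eventually_lt_of_lt_liminf (show p - ε < liminf (mean u) atTop by linarith) (bddL h)
    obtain ⟨N2, hN2⟩ := eventually_atTop.1 e2
    have f1 : ∃ᶠ n in atTop, B - ε < u n := by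
      apply frequently_lt_of_lt_limsup (h.bddL _).isCoboundedUnder_le
      linarith
    obtain ⟨n, hn1, hn2, hn3, hn4, hn5⟩ := (f1.and_eventually (e1.and (e3.and
      ((eventually_ge_atTop N2).and (eventually_gt_atTop 0))))).exists
    have hn0 : (0 : ℝ) < n := by exact_mod_cast hn5
    set M : ℕ := ⌊r₀ * (n : ℝ)⌋₊ with hM
    have hMle : (M : ℝ) ≤ r₀ * n := Nat.floor_le (by positivity)
    have hnM : n ≤ M := by
      rw [hM]
      apply Nat.le_floor
      nlinarith
    have hM0 : 0 < M := lt_of_lt_of_le hn5 hnM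
    have s1 := sum_split u hnM
    rw [sum_eq u hM0, sum_eq u hn5] at s1
    have s2 : ((M : ℝ) - n) * (B - ε - E) ≤ ∑ k ∈ Finset.Ioc n M, u k := by
      have : ∑ k ∈ Finset.Ioc n M, (B - ε - E) = ((M : ℝ) - n) * (B - ε - E) := by
        rw [Finset.sum_const, Nat.card_Ioc, nsmul_eq_mul, Nat.cast_sub hnM]
      rw [← this]
      apply Finset.sum_le_sum
      intro k hk
      rw [Finset.mem_Ioc] at hk
      have hk0 : (0 : ℝ) < k := by
        have : 0 < k := by omega
        exact_mod_cast this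
      have hkM : (k : ℝ) ≤ M := by exact_mod_cast hk.2
      have hnk : (n : ℝ) ≤ k := by exact_mod_cast hk.1.le
      have k1 := h.step n k hn5 hk.1.le
      have k2 : η (1 - n / k) ≤ E := by
        apply hE
        · rw [sub_nonneg, div_le_one hk0]; exact hnk
        · rw [sub_le_comm, le_div_iff₀ hk0]
          have : (k : ℝ) ≤ r₀ * n := hkM.trans hMle
          rw [hr₀, one_div, ← div_eq_inv_mul, le_div_iff₀ h1δ] at this
          linarith
      linarith
    have s3 := hN2 M (hn4.trans hnM)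
    have hMr : (0 : ℝ) < M := by exact_mod_cast hM0
    have s4 : ((M : ℝ) - n) * (B - ε - E) ≤ M * (q + ε) - n * (p - ε) := by
      have m1 : (M : ℝ) * mean u M ≤ M * (q + ε) := by gcongr
      have m2 : (n : ℝ) * (p - ε) ≤ n * mean u n := by gcongr
      linarith
    have s5 : ((M : ℝ) / n - 1) * (B - ε - E) - M / n * (q + ε) + (p - ε) =
        (((M : ℝ) - n) * (B - ε - E) - M * (q + ε) + n * (p - ε)) / n := by
      field_simp
    rw [s5] at hn2
    have s6 : (((M : ℝ) - n) * (B - ε - E) - M * (q + ε) + n * (p - ε)) / n ≤ 0 := by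
      apply div_nonpos_of_nonpos_of_nonneg _ hn0.le
      linarith
    linarith
  have e : (1 - δ) * ((r₀ - 1) * (B - ε - E) - r₀ * (q + ε) + (p - ε)) =
      δ * (B - ε - E) - (q + ε) + (1 - δ) * (p - ε) := by
    rw [hr₀]; field_simp; ring
  have e4 : (1 - δ) * ((r₀ - 1) * (B - ε - E) - r₀ * (q + ε) + (p - ε)) ≤ 0 :=
    mul_nonpos_of_nonneg_of_nonpos h1δ.le key
  rw [e] at e4
  have e5 : ε' = 4 * ε := by rw [hε]; ring
  rw [e5]
  nlinarith

/-- the window below a small value -/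
lemma lower_step (h : SlowDec u η a b) {δ E : ℝ} (hδ0 : 0 < δ) (hδ1 : δ < 1)
    (hE : ∀ θ, 0 ≤ θ → θ ≤ δ → η θ ≤ E) :
    δ * (liminf (mean u) atTop - liminf u atTop - E) ≤
      (1 - δ) * (limsup (mean u) atTop - liminf (mean u) atTop) := by
  set A := liminf u atTop with hA
  set q := limsup (mean u) atTop with hq
  set p := liminf (mean u) atTop with hp
  have h1δ : 0 < 1 - δ := by linarith
  apply le_of_forall_pos_le_add
  intro ε' hε'
  set ε : ℝ := ε' / 4 with hε
  have hε0 : 0 < ε := by positivity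
  set r₀ : ℝ := 1 - δ with hr₀
  have key : (1 - r₀) * (p - ε) - r₀ * (q - p + 2 * ε) - (1 - r₀) * (A + ε + E) ≤ 0 := by
    by_contra hcon
    rw [not_le] at hcon
    have t1 : Tendsto (fun n : ℕ => (⌈r₀ * (n : ℝ)⌉₊ : ℝ) / (n : ℝ)) atTop (𝓝 r₀) :=
      (tendsto_nat_ceil_mul_div_atTop (by linarith : (0 : ℝ) ≤ r₀)).comp tendsto_natCast_atTop_atTop
    have t2 : Tendsto (fun n : ℕ => (1 - (⌈r₀ * (n : ℝ)⌉₊ : ℝ) / (n : ℝ)) * (p - ε) -
        (⌈r₀ * (n : ℝ)⌉₊ : ℝ) / (n : ℝ) * (q - p + 2 * ε) -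
        (1 - (⌈r₀ * (n : ℝ)⌉₊ : ℝ) / (n : ℝ)) * (A + ε + E)) atTop
        (𝓝 ((1 - r₀) * (p - ε) - r₀ * (q - p + 2 * ε) - (1 - r₀) * (A + ε + E))) :=
      (((t1.const_sub 1).mul_const _).sub (t1.mul_const _)).sub ((t1.const_sub 1).mul_const _)
    have e1 := t2.eventually (lt_mem_nhds hcon)
    have e2 : ∀ᶠ N in atTop, mean u N < q + ε :=
      eventually_lt_of_limsup_lt (show limsup (mean u) atTop < q + ε by linarith) (bddU h)
    have e3 : ∀ᶠ N in atTop, p - ε < mean u N :=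
      eventually_lt_of_lt_liminf (show p - ε < liminf (mean u) atTop by linarith) (bddL h)
    obtain ⟨N2, hN2⟩ := eventually_atTop.1 e2
    have f1 : ∃ᶠ n in atTop, u n < A + ε := by
      apply frequently_lt_of_liminf_lt (h.bddU _).isCoboundedUnder_ge
      linarith
    have e6 : ∀ᶠ n : ℕ in atTop, ((max N2 1 : ℕ) : ℝ) ≤ r₀ * (n : ℝ) := by
      have : Tendsto (fun n : ℕ => r₀ * (n : ℝ)) atTop atTop :=
        tendsto_natCast_atTop_atTop.const_mul_atTop h1δ
      exact this.eventually_ge_atTop _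
    obtain ⟨n, hn1, hn2, hn3, hn4, hn5⟩ := (f1.and_eventually (e1.and (e3.and
      (e6.and (eventually_gt_atTop 0))))).exists
    have hn0 : (0 : ℝ) < n := by exact_mod_cast hn5
    set M : ℕ := ⌈r₀ * (n : ℝ)⌉₊ with hM
    have hMge : r₀ * n ≤ (M : ℝ) := Nat.le_ceil _
    have hnM : M ≤ n := by
      rw [hM]
      apply Nat.ceil_le.2
      nlinarith
    have hM12 : max N2 1 ≤ M := by
      have : ((max N2 1 : ℕ) : ℝ) ≤ M := hn4.trans hMge
      exact_mod_cast this
    have hM0 : 0 < M := by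
      have := le_max_right N2 1
      omega
    have s1 := sum_split u hnM
    rw [sum_eq u hM0, sum_eq u hn5] at s1
    have s2 : ∑ k ∈ Finset.Ioc M n, u k ≤ ((n : ℝ) - M) * (A + ε + E) := by
      have : ∑ k ∈ Finset.Ioc M n, (A + ε + E) = ((n : ℝ) - M) * (A + ε + E) := by
        rw [Finset.sum_const, Nat.card_Ioc, nsmul_eq_mul, Nat.cast_sub hnM]
      rw [← this]
      apply Finset.sum_le_sum
      intro k hk
      rw [Finset.mem_Ioc] at hk
      have hk00 : 0 < k := by omega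
      have hk0 : (0 : ℝ) < k := by exact_mod_cast hk00
      have hkM : (M : ℝ) ≤ k := by exact_mod_cast hk.1.le
      have hnk : (k : ℝ) ≤ n := by exact_mod_cast hk.2
      have k1 := h.step k n hk00 hk.2
      have k2 : η (1 - k / n) ≤ E := by
        apply hE
        · rw [sub_nonneg, div_le_one hn0]; exact hnk
        · rw [sub_le_comm, le_div_iff₀ hn0]
          have : r₀ * n ≤ (k : ℝ) := hMge.trans hkM
          linarith
      linarith
    have s3 := hN2 M ((le_max_left _ _).trans hM12)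
    have hMr : (0 : ℝ) < M := by exact_mod_cast hM0
    have s4 : (n : ℝ) * (p - ε) - M * (q + ε) ≤ ((n : ℝ) - M) * (A + ε + E) := by
      have m1 : (M : ℝ) * mean u M ≤ M * (q + ε) := by gcongr
      have m2 : (n : ℝ) * (p - ε) ≤ n * mean u n := by gcongr
      linarith
    have s5 : (1 - (M : ℝ) / n) * (p - ε) - M / n * (q - p + 2 * ε) - (1 - (M : ℝ) / n) * (A + ε + E) =
        ((n : ℝ) * (p - ε) - M * (q + ε) - ((n : ℝ) - M) * (A + ε + E)) / n := by
      field_simp
      ring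
    rw [s5] at hn2
    have s6 : ((n : ℝ) * (p - ε) - M * (q + ε) - ((n : ℝ) - M) * (A + ε + E)) / n ≤ 0 := by
      apply div_nonpos_of_nonpos_of_nonneg _ hn0.le
      linarith
    linarith
  have e5 : ε' = 4 * ε := by rw [hε]; ring
  rw [e5]
  rw [hr₀] at key ⊢
  nlinarith

/-- the oscillation of the means is bounded from below by the oscillation of the sequence -/
theorem osc_mean (h : SlowDec u η a b) {δ E : ℝ} (hδ0 : 0 < δ) (hδ1 : δ < 1)
    (hE : ∀ θ, 0 ≤ θ → θ ≤ δ → η θ ≤ E) :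
    δ * (limsup u atTop - liminf u atTop - 2 * E) ≤
      (2 - δ) * (limsup (mean u) atTop - liminf (mean u) atTop) := by
  have h1 := upper_step h hδ0 hδ1 hE
  have h2 := lower_step h hδ0 hδ1 hE
  nlinarith

end Pool.Agent.TH915.HC
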